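import Mathlib
import Pool.Agent.helper67.ND.Defs
import Pool.Agent.helper67.ND.Main
import Pool.Agent.helper14.ND_F

/-!
# The `n/d` conjecture for all complex hyperplane arrangements

Let `f = ∏ (linear form) ^ mu` be a central arrangement in `ℂ ^ n` with multiplicities.  For every
dense edge `X` of rank `r` and total multiplicity `d`, the number `-r / d` is a root of the local
Bernstein-Sato polynomial of `f` at the origin.  Consequently every pole of a function of the form
`∑_I c_I ∏_{X ∈ I} 1 / (d_X s + r_X)`, the sum being over finitely many finite sets `I` of dense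
edges with arbitrary complex coefficients, is a root; the topological zeta function of `f`, computed
on the resolution obtained by blowing up the dense edges, is of this form.
-/

namespace Pool.Agent.Results.MP_6163c8_ag.AllArrangements

open Pool.Agent.helper67.ND Pool.Agent.helper14.CND

open Classical in
/-- Every `b` in the local Bernstein ideal of a central arrangement vanishes at `-r / d` for every
dense edge, hence at every pole of every function of the shape of the topological zeta function. -/
theorem result {ι : Type} [Fintype ι] {n : ℕ} (A : ι → Fin n → ℂ) (hA : ∀ i, A i ≠ 0)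
    (mu : ι → ℕ) (hmu : ∀ i, 1 ≤ mu i) (b : Polynomial ℂ) (hb : IsBernstein (arrC A mu) b) :
    (∀ X : Finset ι, IsDenseEdgeC A X →
      b.eval (- (rkC A X : ℂ) / (∑ i ∈ X, mu i : ℕ)) = 0) ∧
    ∀ (S : Finset (Finset (Finset ι))) (_ : ∀ I ∈ S, ∀ X ∈ I, IsDenseEdgeC A X)
      (c : Finset (Finset ι) → ℂ) (s₀ : ℂ),
      meromorphicOrderAt (fun s : ℂ => ∑ I ∈ S, c I *
        ∏ X ∈ I, (((∑ i ∈ X, mu i : ℕ) : ℂ) * s + (rkC A X : ℂ))⁻¹) s₀ < 0 →
      b.eval s₀ = 0 := by
  have halg : AlgMain := Pool.Agent.helper67.ND.algMain
  exact ⟨fun X hX => final halg A hA mu hmu X hX b hb,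
    fun S hS c s₀ hp => zeta_poles halg A hA mu hmu b hb S hS c s₀ hp⟩

end Pool.Agent.Results.MP_6163c8_ag.AllArrangements
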